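import Mathlib

/-!
Knot diagrams as one-circle smoothings, their Wirtinger groups, and the sets of prime knot types
of given crossing number in the marked group model.
-/

namespace Pool.Agent.MP_b13154_gt.H25

/-- A circle carrying `2 * n` points joined in pairs by `n` chords, each chord inside
(`side = true`) or outside the circle, chords on one side not crossing. Replacing every chord by a
crossing gives a connected link diagram with `n` crossings; `top` tells which strand is on top.
Every connected diagram arises in this way (Jordan-Euler trail). -/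
structure Diag (n : ℕ) where
  mate : Fin (2 * n) → Fin (2 * n)
  side : Fin (2 * n) → Bool
  top : Fin (2 * n) → Bool
  mate_mate : ∀ p, mate (mate p) = p
  mate_ne : ∀ p, mate p ≠ p
  side_mate : ∀ p, side (mate p) = side p
  top_mate : ∀ p, top (mate p) = top p
  planar : ∀ p q, side p = side q → ¬ (p < q ∧ q < mate p ∧ mate p < mate q)

/-- The two Wirtinger relators at a crossing: `b, a` are the edges before and after the first end
of the chord, `b', a'` those at the second end. The strands are `b, b'` and `a, a'`. -/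
def crossRels {G : Type} [Group G] (side top : Bool) (b a b' a' : G) : Set G :=
  {if side then b⁻¹ * a * b'⁻¹ * a' else a * b⁻¹ * a' * b'⁻¹, if top then b * b' else a * a'}

/-- Relators on the generators `x 0, ..., x (2 n)` (the arcs of the circle, `x (2 n) = x 0`). -/
def Diag.rels {n : ℕ} (D : Diag n) : Set (FreeGroup (Fin (2 * n + 1))) :=
  {FreeGroup.of (Fin.last (2 * n)) * (FreeGroup.of 0)⁻¹} ∪
    ⋃ p : Fin (2 * n), crossRels (D.side p) (D.top p) (FreeGroup.of p.castSucc)
      (FreeGroup.of p.succ) (FreeGroup.of (D.mate p).castSucc) (FreeGroup.of (D.mate p).succ)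

/-- The Wirtinger group of the diagram. -/
abbrev Diag.grp {n : ℕ} (D : Diag n) : Type := PresentedGroup D.rels

/-- The marked meridian. -/
def Diag.mer {n : ℕ} (D : Diag n) : D.grp := PresentedGroup.of 0

/-- `x` is conjugate to `m` or to its inverse. -/
def Mer {G : Type} [Group G] (m x : G) : Prop := IsConj x m ∨ IsConj x m⁻¹

/-- The diagram has one component. -/
def Diag.IsKnot {n : ℕ} (D : Diag n) : Prop := ∀ i, Mer D.mer (PresentedGroup.of i : D.grp)

/-- `G` is a proper amalgamated product over a subgroup of a conjugate of the cyclic group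
generated by `m`, and a conjugate of `m` lies in a factor. -/
def Splits {G : Type} [Group G] (m : G) : Prop :=
  ∃ P Q : Subgroup G, P ⊔ Q = ⊤ ∧ P ≠ ⊤ ∧ Q ≠ ⊤ ∧ (∃ g : G, g * m * g⁻¹ ∈ P) ∧
    (∃ g : G, P ⊓ Q ≤ Subgroup.zpowers (g * m * g⁻¹)) ∧
    ∀ (H : Type) [Group H] (f : P →* H) (f' : Q →* H),
      (∀ (x : G) (hP : x ∈ P) (hQ : x ∈ Q), f ⟨x, hP⟩ = f' ⟨x, hQ⟩) →
      ∃ F : G →* H, (∀ x : P, F x = f x) ∧ ∀ x : Q, F x = f' x

/-- A diagram of a prime knot: one component, group not cyclic, no splitting along a meridian. -/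
def Diag.IsPrime {n : ℕ} (D : Diag n) : Prop := D.IsKnot ∧ ¬ IsCyclic D.grp ∧ ¬ Splits D.mer

/-- The knot diagrams whose group is isomorphic to that of `D`, meridian going to a meridian. -/
def Diag.type {n : ℕ} (D : Diag n) : Set (Σ k, Diag k) :=
  {E | E.2.IsKnot ∧ ∃ e : D.grp ≃* E.2.grp, Mer E.2.mer (e D.mer)}

/-- Prime knot types of crossing number `n`. -/
def primeKnots (n : ℕ) : Set (Set (Σ k, Diag k)) :=
  {S | ∃ D : Diag n, D.IsPrime ∧ S = D.type ∧ ∀ E ∈ S, n ≤ E.1}

end Pool.Agent.MP_b13154_gt.H25
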